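import Mathlib
import Pool.Agent.Helper89.PCharMain

/-!
# Almost simple groups whose P-characters are monomial: pairs of subgroups of least index
-/

set_option autoImplicit false

universe u

namespace Pool.Agent.Helper28.PC

open Pool.Agent.Helper89.PChar
open scoped Pointwise

/-- `R` is a proper subgroup of `S` of least index. -/
def IsLeastIndex {S : Type u} [Group S] (R : Subgroup S) : Prop :=
  R ≠ ⊤ ∧ ∀ R' : Subgroup S, R' ≠ ⊤ → R.index ≤ R'.index

/-- `S` has a proper subgroup `R` of index less than twice the least index of a proper subgroup,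
such that the conjugacy class of `R` in `S` is invariant under all automorphisms of `S`. -/
def HasInvariantClass (S : Type u) [Group S] : Prop :=
  ∃ R₀ R : Subgroup S, IsLeastIndex R₀ ∧ R ≠ ⊤ ∧ R.index < 2 * R₀.index ∧
    ∀ α : MulAut S, ∃ s : S, R.map α.toMonoidHom = R.map (MulAut.conj s).toMonoidHom

/-- `S` has two (possibly equal) subgroups `R`, `R'` of least index such that every automorphism
of `S` followed by a suitable inner automorphism permutes `R` and `R'`. -/
def HasInvariantPair (S : Type u) [Group S] : Prop :=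
  ∃ R R' : Subgroup S, IsLeastIndex R ∧ IsLeastIndex R' ∧ ∀ α : MulAut S, ∃ s : S,
    (R.map (MulAut.conj s * α).toMonoidHom = R ∧ R'.map (MulAut.conj s * α).toMonoidHom = R') ∨
    (R.map (MulAut.conj s * α).toMonoidHom = R' ∧ R'.map (MulAut.conj s * α).toMonoidHom = R)

/-- For every subgroup `A` of `Aut S` containing `Inn S` there are a subgroup `U`, of least index
among the subgroups of `A` not containing `Inn S`, and a proper subgroup `X` of `A` with
`X Inn(S) = A`, such that `|U : U ∩ X| ≤ |A : U|`. -/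
def HasShortOrbits (S : Type u) [Group S] : Prop :=
  ∀ A : Subgroup (MulAut S), (MulAut.conj : S →* MulAut S).range ≤ A →
    ∃ U X : Subgroup (MulAut S), U ≤ A ∧ ¬ (MulAut.conj : S →* MulAut S).range ≤ U ∧
      (∀ V : Subgroup (MulAut S), V ≤ A → ¬ (MulAut.conj : S →* MulAut S).range ≤ V →
        U.relIndex A ≤ V.relIndex A) ∧
      X < A ∧ X ⊔ (MulAut.conj : S →* MulAut S).range = A ∧ X.relIndex U ≤ U.relIndex A

section

variable {A : Type u} [Group A] [Finite A]

theorem relIndex_sup_eq (K V : Subgroup A) [K.Normal] : V.relIndex (K ⊔ V) = V.relIndex K := by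
  have h1 : Nat.card K * K.relIndex (K ⊔ V) = Nat.card (K ⊔ V : Subgroup A) := by
    rw [← Subgroup.relIndex_bot_left, ← Subgroup.relIndex_bot_left,
      Subgroup.relIndex_mul_relIndex _ _ _ bot_le le_sup_left]
  have h2 : Nat.card V * V.relIndex (K ⊔ V) = Nat.card (K ⊔ V : Subgroup A) := by
    rw [← Subgroup.relIndex_bot_left, ← Subgroup.relIndex_bot_left,
      Subgroup.relIndex_mul_relIndex _ _ _ bot_le le_sup_right]
  have h3 : Nat.card (K ⊓ V : Subgroup A) * K.relIndex V = Nat.card V := by
    rw [← Subgroup.relIndex_bot_left, ← Subgroup.relIndex_bot_left,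
      ← Subgroup.inf_relIndex_right K V,
      Subgroup.relIndex_mul_relIndex _ _ _ bot_le inf_le_right]
  have h4 : Nat.card (K ⊓ V : Subgroup A) * V.relIndex K = Nat.card K := by
    rw [← Subgroup.relIndex_bot_left, ← Subgroup.relIndex_bot_left,
      ← Subgroup.inf_relIndex_left K V,
      Subgroup.relIndex_mul_relIndex _ _ _ bot_le inf_le_left]
  rw [Subgroup.relIndex_sup_left] at h1
  have h5 : 0 < Nat.card (K ⊓ V : Subgroup A) := Nat.card_pos
  have h6 : 0 < K.relIndex V := by
    rcases Nat.eq_zero_or_pos (K.relIndex V) with h | h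
    · rw [h, mul_zero] at h3
      exact absurd h3.symm Nat.card_pos.ne'
    · exact h
  have h7 : Nat.card (K ⊓ V : Subgroup A) * K.relIndex V * V.relIndex (K ⊔ V) =
      Nat.card (K ⊓ V : Subgroup A) * K.relIndex V * V.relIndex K := by
    calc _ = Nat.card V * V.relIndex (K ⊔ V) := by rw [h3]
      _ = Nat.card K * K.relIndex V := by rw [h2, h1]
      _ = _ := by rw [← h4]; ring
  exact Nat.eq_of_mul_eq_mul_left (by positivity) h7

theorem index_le_two (W : Subgroup A) (h : ∀ a b : A, a ∉ W → b ∉ W → a⁻¹ * b ∈ W) :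
    W.index ≤ 2 := by
  classical
  let f : A ⧸ W → Bool := fun q => decide (q = QuotientGroup.mk 1)
  have hf : Function.Injective f := by
    intro p q hpq
    obtain ⟨a, rfl⟩ := QuotientGroup.mk_surjective p
    obtain ⟨b, rfl⟩ := QuotientGroup.mk_surjective q
    have h1 : (QuotientGroup.mk a = (QuotientGroup.mk 1 : A ⧸ W)) ↔
        (QuotientGroup.mk b = (QuotientGroup.mk 1 : A ⧸ W)) := by
      simpa [f] using hpq
    by_cases ha : (QuotientGroup.mk a = (QuotientGroup.mk 1 : A ⧸ W))
    · rw [ha, h1.1 ha]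
    · have hb := fun hb => ha (h1.2 hb)
      rw [QuotientGroup.eq]
      apply h
      · intro haW
        apply ha
        rw [QuotientGroup.eq]
        simpa using W.inv_mem haW
      · intro hbW
        apply hb
        rw [QuotientGroup.eq]
        simpa using W.inv_mem hbW
  have h2 := Nat.card_le_card_of_injective f hf
  simpa [Subgroup.index] using h2

variable {N : Subgroup A} [hN : N.Normal]

/-- the normaliser in `A` of a subgroup `R` of `N` -/
noncomputable def St (R : Subgroup N) : Subgroup A :=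
  (MulAction.stabilizer (MulAut N) R).comap (MulAut.conjNormal : A →* MulAut N)

theorem mem_St {R : Subgroup N} {a : A} :
    a ∈ St R ↔ (MulAut.conjNormal a : MulAut N) • R = R := by
  simp [St, MulAction.mem_stabilizer_iff]

/-- if, up to elements of the normal subgroup `K`, every element moves `R` to `R` or `R'`, then
`K St(R)` has index at most two -/
theorem sup_index_le (K : Subgroup A) [K.Normal] (R R' : Subgroup N)
    (h : ∀ a : A, ∃ s ∈ K, (MulAut.conjNormal (s * a) : MulAut N) • R = R ∨
      (MulAut.conjNormal (s * a) : MulAut N) • R = R') : (K ⊔ St R).index ≤ 2 := by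
  apply index_le_two
  intro a b ha hb
  obtain ⟨s, hs, h1⟩ := h a
  obtain ⟨t, ht, h2⟩ := h b
  have key : ∀ (s a : A), s ∈ K → (MulAut.conjNormal (s * a) : MulAut N) • R = R → a ∈ K ⊔ St R := by
    intro s a hs h3
    have h4 : s * a ∈ St R := mem_St.2 h3
    have h5 : s⁻¹ * (s * a) ∈ K ⊔ St R :=
      (K ⊔ St R).mul_mem ((le_sup_left : K ≤ K ⊔ St R) (K.inv_mem hs))
        ((le_sup_right : St R ≤ K ⊔ St R) h4)
    simpa using h5
  have h1' : (MulAut.conjNormal (s * a) : MulAut N) • R = R' := by
    rcases h1 with h1 | h1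
    · exact absurd (key s a hs h1) ha
    · exact h1
  have h2' : (MulAut.conjNormal (t * b) : MulAut N) • R = R' := by
    rcases h2 with h2 | h2
    · exact absurd (key t b ht h2) hb
    · exact h2
  have h3 : (s * a)⁻¹ * (t * b) ∈ St R := by
    rw [mem_St, map_mul, mul_smul, h2', ← h1', map_inv, inv_smul_smul]
  have h4 : a⁻¹ * b = (a⁻¹ * s * a) * ((s * a)⁻¹ * (t * b)) * (b⁻¹ * t⁻¹ * b) := by group
  rw [h4]
  have hKn : K.Normal := inferInstance
  refine (K ⊔ St R).mul_mem ((K ⊔ St R).mul_mem ((le_sup_left : K ≤ K ⊔ St R) ?_)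
    ((le_sup_right : St R ≤ K ⊔ St R) h3)) ((le_sup_left : K ≤ K ⊔ St R) ?_)
  · simpa using hKn.conj_mem s hs a⁻¹
  · simpa using hKn.conj_mem t⁻¹ (K.inv_mem ht) b⁻¹

theorem St_relIndex_le (R : Subgroup N) : (St R).relIndex N ≤ R.index := by
  have h1 : R ≤ (St R).subgroupOf N := by
    intro r hr
    rw [Subgroup.mem_subgroupOf, mem_St, MulAut.conjNormal_val]
    exact Subgroup.conj_smul_eq_self_of_mem hr
  exact Subgroup.index_antitone h1

theorem St_index_le (R R' : Subgroup N)
    (h : ∀ a : A, ∃ s ∈ N, (MulAut.conjNormal (s * a) : MulAut N) • R = R ∨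
      (MulAut.conjNormal (s * a) : MulAut N) • R = R') : (St R).index ≤ 2 * R.index := by
  have h1 := Subgroup.relIndex_mul_index (H := St R) (K := N ⊔ St R) le_sup_right
  rw [relIndex_sup_eq] at h1
  rw [← h1, mul_comm]
  exact Nat.mul_le_mul (sup_index_le N R R' h) (St_relIndex_le R)

/-- a least-index subgroup is nontrivial in a nonabelian group -/
theorem ne_bot_of_least {S : Type u} [Group S] [Finite S] (R : Subgroup S) (hR : IsLeastIndex R)
    (hna : ∃ x y : S, x * y ≠ y * x) : R ≠ ⊥ := by
  rintro rfl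
  obtain ⟨x, y, hxy⟩ := hna
  have hx : x ≠ 1 := by
    rintro rfl
    apply hxy
    simp
  have h1 : Subgroup.zpowers x ≠ ⊤ := by
    intro h
    apply hxy
    have hy : y ∈ Subgroup.zpowers x := by rw [h]; trivial
    obtain ⟨k, rfl⟩ := Subgroup.mem_zpowers_iff.1 hy
    exact ((Commute.refl x).zpow_right k).eq
  have h2 := hR.2 _ h1
  rw [Subgroup.index_bot] at h2
  have h3 := (Subgroup.zpowers x).card_mul_index
  have h4 : 1 < Nat.card (Subgroup.zpowers x) := by
    rw [Subgroup.one_lt_card_iff_ne_bot]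
    intro h5
    exact hx (Subgroup.zpowers_eq_bot.1 h5)
  have h5 : 0 < Nat.card S := Nat.card_pos
  nlinarith

end

section

variable {A : Type u} [Group A] [Finite A] {N : Subgroup A}

theorem exists_min (hA : AlmostSimple A N) : ∃ U : Subgroup A, IsMinIndex N U := by
  classical
  have hfin : Finite (Subgroup A) := inferInstance
  have hne : ({U : Subgroup A | ¬ N ≤ U}).Nonempty := by
    refine ⟨⊥, ?_⟩
    intro h
    have h1 : Nat.card N = 1 := by rw [le_bot_iff.1 h]; simp
    have := hA.card_pos
    omega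
  obtain ⟨U, hU, hmin⟩ := Set.exists_min_image {U : Subgroup A | ¬ N ≤ U} Subgroup.index
    (Set.toFinite _) hne
  exact ⟨U, hU, fun U' hU' => hmin U' hU'⟩

theorem two_mul_le (hA : AlmostSimple A N) (hG : AllPMonomial A) (U : Subgroup A)
    (hU : IsMinIndex N U) (R : Subgroup N) (hR : IsLeastIndex R) : 2 * R.index ≤ U.index := by
  have hn := hA.normal
  obtain ⟨hNU, hmin⟩ := hU
  have hUN : U ⊔ N ≠ ⊤ := by
    intro htop
    by_cases hU : U = ⊤
    · exact hNU (by rw [hU]; exact le_top)
    have h1 := supplement_bound hA hG U hmin U hU htop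
    rw [Subgroup.relIndex_self] at h1
    have h2 : U.index ≠ 0 := Subgroup.index_ne_zero_of_finite
    omega
  have h2 := Subgroup.relIndex_mul_index (H := U) (K := U ⊔ N) le_sup_left
  have h3 : U.relIndex N ≤ U.relIndex (U ⊔ N) :=
    Subgroup.relIndex_le_of_le_right le_sup_right Subgroup.index_ne_zero_of_finite
  have h4 : (U ⊔ N).index ≠ 0 := Subgroup.index_ne_zero_of_finite
  have h5 : (U ⊔ N).index ≠ 1 := fun h => hUN (Subgroup.index_eq_one.1 h)
  have h6 : R.index ≤ U.relIndex N := by
    apply hR.2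
    intro h
    exact hNU (Subgroup.subgroupOf_eq_top.1 h)
  rw [← h2, mul_comm]
  exact Nat.mul_le_mul (h6.trans h3) (by omega)

theorem nonabelian' (hA : AlmostSimple A N) : ∃ x y : N, x * y ≠ y * x := by
  obtain ⟨x, hx, y, hy, hxy⟩ := hA.nonabelian
  exact ⟨⟨x, hx⟩, ⟨y, hy⟩, fun h => hxy (congrArg Subtype.val h)⟩

theorem no_pair (hA : AlmostSimple A N) (hG : AllPMonomial A) (h : HasInvariantPair N) :
    False := by
  classical
  have hn := hA.normal
  obtain ⟨R, R', hR, hR', h⟩ := h
  obtain ⟨U, hU⟩ := exists_min hA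
  have hm := two_mul_le hA hG U hU R hR
  have hRR : R'.index = R.index := le_antisymm (hR'.2 R hR.1) (hR.2 R' hR'.1)
  have h' : ∀ a : A, ∃ s ∈ N,
      ((MulAut.conjNormal (s * a) : MulAut N) • R = R ∧
        (MulAut.conjNormal (s * a) : MulAut N) • R' = R') ∨
      ((MulAut.conjNormal (s * a) : MulAut N) • R = R' ∧
        (MulAut.conjNormal (s * a) : MulAut N) • R' = R) := by
    intro a
    obtain ⟨s, hs⟩ := h (MulAut.conjNormal a)
    refine ⟨s, s.2, ?_⟩
    rw [map_mul, MulAut.conjNormal_val]
    exact hs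
  have hU0 : (St R : Subgroup A).index ≤ 2 * R.index := by
    apply St_index_le R R'
    intro a
    obtain ⟨s, hs, h1⟩ := h' a
    exact ⟨s, hs, h1.imp (fun h => h.1) fun h => h.1⟩
  have hU1 : (St R' : Subgroup A).index ≤ 2 * R.index := by
    rw [← hRR]
    apply St_index_le R' R
    intro a
    obtain ⟨s, hs, h1⟩ := h' a
    exact ⟨s, hs, h1.imp (fun h => h.2) fun h => h.2⟩
  have hNU0 : ¬ N ≤ St R := by
    intro hle
    have h1 := hA.simple
    have h2 : R.Normal := by
      refine ⟨?_⟩
      intro r hr n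
      have h3 := mem_St.1 (hle n.2)
      rw [MulAut.conjNormal_val] at h3
      rw [← h3]
      exact Subgroup.smul_mem_pointwise_smul r (MulAut.conj n) R hr
    rcases h2.eq_bot_or_eq_top with h3 | h3
    · exact ne_bot_of_least R hR (nonabelian' hA) h3
    · exact hR.1 h3
  have hmin0 : ∀ U' : Subgroup A, ¬ N ≤ U' → (St R).index ≤ U'.index := by
    intro U' hU'
    exact (hU0.trans hm).trans (hU.2 U' hU')
  have hm0 : 2 * R.index ≤ (St R).index := hm.trans (hU.2 _ hNU0)
  set X : Subgroup A := (MulAction.stabilizer (MulAut N) ({R, R'} : Set (Subgroup N))).comap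
    (MulAut.conjNormal : A →* MulAut N) with hXdef
  have hXmem : ∀ a : A, a ∈ X ↔ (MulAut.conjNormal a : MulAut N) • ({R, R'} : Set (Subgroup N)) =
      {R, R'} := by
    intro a
    rw [hXdef, Subgroup.mem_comap, MulAction.mem_stabilizer_iff]
  have hpair : ∀ β : MulAut N, β • ({R, R'} : Set (Subgroup N)) = {β • R, β • R'} := by
    intro β
    rw [← Set.image_smul, Set.image_pair]
  have hXN : X ⊔ N = ⊤ := by
    rw [eq_top_iff]
    intro a _
    obtain ⟨s, hs, h1⟩ := h' a
    have h2 : s * a ∈ X := by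
      rw [hXmem, hpair]
      rcases h1 with ⟨h3, h4⟩ | ⟨h3, h4⟩
      · rw [h3, h4]
      · rw [h3, h4, Set.pair_comm]
    have h3 : s⁻¹ * (s * a) ∈ X ⊔ N :=
      (X ⊔ N).mul_mem ((le_sup_right : N ≤ X ⊔ N) (N.inv_mem hs)) ((le_sup_left : X ≤ X ⊔ N) h2)
    simpa using h3
  have hX : X ≠ ⊤ := by
    intro htop
    have h1 : (⊥ ⊔ St R : Subgroup A).index ≤ 2 := by
      apply sup_index_le ⊥ R R'
      intro a
      refine ⟨1, Subgroup.one_mem _, ?_⟩
      rw [one_mul]
      have h2 : a ∈ X := by rw [htop]; trivial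
      rw [hXmem, hpair] at h2
      have h3 : (MulAut.conjNormal a : MulAut N) • R ∈ ({R, R'} : Set (Subgroup N)) := by
        rw [← h2]
        exact Set.mem_insert _ _
      simpa using h3
    rw [bot_sup_eq] at h1
    have h2 : R.index ≠ 0 := Subgroup.index_ne_zero_of_finite
    have h3 : R.index ≠ 1 := fun h => hR.1 (Subgroup.index_eq_one.1 h)
    omega
  have hlt := supplement_bound hA hG (St R) hmin0 X hX hXN
  have h1 : X.relIndex (St R) ≤ (St R').relIndex (St R) := by
    rw [← Subgroup.inf_relIndex_right (St R') (St R)]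
    apply Subgroup.relIndex_le_of_le_left _ Subgroup.index_ne_zero_of_finite
    intro a ha
    rw [hXmem, hpair, mem_St.1 ha.1, mem_St.1 ha.2]
  have h2 : (St R').relIndex (St R) ≤ (St R').index := by
    rw [← Subgroup.relIndex_top_right (St R')]
    exact Subgroup.relIndex_le_of_le_right le_top Subgroup.index_ne_zero_of_finite
  omega

theorem no_class (hA : AlmostSimple A N) (hG : AllPMonomial A) (h : HasInvariantClass N) :
    False := by
  have hn := hA.normal
  obtain ⟨R₀, R, hR₀, hR, hlt, h⟩ := h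
  obtain ⟨U, hU⟩ := exists_min hA
  have hrel : (R.map N.subtype).relIndex N = R.index := by
    rw [Subgroup.relIndex, Subgroup.subgroupOf, Subgroup.comap_map_eq_self_of_injective
      N.subtype_injective]
  have hRN : R.map N.subtype < N := by
    refine lt_of_le_of_ne (Subgroup.map_subtype_le R) ?_
    intro heq
    rw [heq, Subgroup.relIndex_self] at hrel
    exact hR (Subgroup.index_eq_one.1 hrel.symm)
  have hconj : ∀ a : A, (R.map N.subtype).map (MulAut.conj a).toMonoidHom =
      (R.map (MulAut.conjNormal a : MulAut N).toMonoidHom).map N.subtype := by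
    intro a
    rw [Subgroup.map_map, Subgroup.map_map]
    rfl
  have h1 := class_bound hA hG U hU.1 hU.2 (R.map N.subtype) hRN (by
    intro a
    obtain ⟨s, hs⟩ := h (MulAut.conjNormal a)
    refine ⟨s, s.2, ?_⟩
    rw [hconj, hconj, hs, MulAut.conjNormal_val])
  rw [hrel] at h1
  have h2 : R₀.index ≤ U.relIndex N := by
    apply hR₀.2
    intro h
    exact hU.1 (Subgroup.subgroupOf_eq_top.1 h)
  omega

theorem no_short (hA : AlmostSimple A N) (hG : AllPMonomial A) (h : HasShortOrbits N) :
    False := by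
  classical
  have hn := hA.normal
  set f : A →* MulAut N := MulAut.conjNormal with hf
  have hval : ∀ n : N, f n = MulAut.conj n := fun n => MulAut.conjNormal_val
  have hinj : Function.Injective f := by
    rw [injective_iff_map_eq_one]
    intro a ha
    have h1 : a ∈ Subgroup.centralizer (N : Set A) := by
      rw [Subgroup.mem_centralizer_iff]
      intro n hn'
      have h2 : ((f a) ⟨n, hn'⟩ : A) = n := by rw [ha]; rfl
      rw [hf, MulAut.conjNormal_apply] at h2
      simp only at h2
      calc n * a = a * n * a⁻¹ * a := by rw [h2]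
        _ = a * n := by group
    rw [hA.centralizer] at h1
    simpa using h1
  have hInn : (MulAut.conj : N →* MulAut N).range ≤ f.range := by
    rintro _ ⟨n, rfl⟩
    exact ⟨n, hval n⟩
  obtain ⟨U, X, hUA, hU, hmin, hX, hXN, hle⟩ := h f.range hInn
  have hU1 : ¬ N ≤ U.comap f := by
    intro hle
    apply hU
    rintro _ ⟨n, rfl⟩
    rw [← hval]
    exact hle n.2
  have hmin' : ∀ V : Subgroup A, ¬ N ≤ V → (U.comap f).index ≤ V.index := by
    intro V hV
    have h1 : (V.map f).comap f = V := Subgroup.comap_map_eq_self_of_injective hinj V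
    have h2 := hmin (V.map f) (by rintro _ ⟨v, _, rfl⟩; exact ⟨v, rfl⟩) (by
      intro hle
      apply hV
      intro n hn'
      rw [← h1, Subgroup.mem_comap]
      exact hle ⟨⟨n, hn'⟩, (hval ⟨n, hn'⟩).symm⟩)
    rw [← h1, Subgroup.index_comap, Subgroup.index_comap]
    exact h2
  have hX1 : X.comap f ≠ ⊤ := by
    intro htop
    apply hX.not_ge
    rintro _ ⟨a, rfl⟩
    have h1 : a ∈ X.comap f := by rw [htop]; trivial
    exact h1
  have hXN1 : X.comap f ⊔ N = ⊤ := by
    rw [eq_top_iff]
    intro a _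
    have h1 : f a ∈ X ⊔ (MulAut.conj : N →* MulAut N).range := by
      rw [hXN]
      exact ⟨a, rfl⟩
    have hnorm : (MulAut.conj : N →* MulAut N).range.Normal := by
      refine ⟨?_⟩
      rintro _ ⟨n, rfl⟩ φ
      refine ⟨φ n, ?_⟩
      ext y
      simp [MulAut.conj_apply]
    rw [Subgroup.mem_sup_of_normal_right] at h1
    obtain ⟨x, hx, _, ⟨n, rfl⟩, hxn⟩ := h1
    rw [← hval] at hxn
    have h2 : f (a * (n : A)⁻¹) = x := by
      rw [map_mul, map_inv, ← hxn]
      group
    have h3 : a = (a * (n : A)⁻¹) * n := by group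
    rw [h3]
    refine Subgroup.mul_mem_sup ?_ n.2
    rw [Subgroup.mem_comap, h2]
    exact hx
  have hlt := supplement_bound hA hG (U.comap f) hmin' (X.comap f) hX1 hXN1
  rw [Subgroup.index_comap, Subgroup.relIndex_comap, Subgroup.map_comap_eq,
    inf_eq_right.2 hUA] at hlt
  omega

end

end Pool.Agent.Helper28.PC
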